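import Pool.Agent.H33.SMS.Targets

/-!
# Good primes give the criterion (MP_ec36a5_nt, rows GOO and BAD)
-/

set_option autoImplicit false

namespace Pool.Agent.H45.SMS

open Pool.Agent.H33.SMS

theorem pf_GOO : T_GOO := by
  intro p n s hp hpn hbad hps hsn
  haveI : Fact p.Prime := ⟨hp⟩
  refine ⟨hp, hpn, hps, ?_⟩
  intro i hi his
  have h1 : ¬ (padicValNat p n + padicValNat p i.factorial ≤ padicValNat p (n - i)) := by
    intro h
    exact hbad ⟨i, hi, by omega, h⟩
  have h2 : (s - 1).descFactorial i = i.factorial * (s - 1).choose i :=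
    Nat.descFactorial_eq_factorial_mul_choose _ _
  have hc : (s - 1).choose i ≠ 0 := (Nat.choose_pos (by omega)).ne'
  rw [h2, padicValNat.mul (Nat.factorial_ne_zero _) hc]
  omega

/-- The power of `p` in `(p j)!` is at least `j`. -/
theorem pow_dvd_fac (p : ℕ) (hp : 0 < p) : ∀ j : ℕ, p ^ j ∣ (p * j).factorial := by
  intro j
  induction j with
  | zero => simp
  | succ j ih =>
    have h1 : p * (j + 1) = (p * j + (p - 1)) + 1 := by
      rw [Nat.mul_succ]; omega
    have h2 : (p * (j + 1)).factorial = (p * (j + 1)) * (p * j + (p - 1)).factorial := by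
      rw [h1, Nat.factorial_succ]
    rw [h2, pow_succ, mul_comm (p ^ j) p, mul_assoc]
    refine mul_dvd_mul_left p ?_
    exact dvd_mul_of_dvd_right (ih.trans (Nat.factorial_dvd_factorial (by omega))) _

theorem pf_BAD : T_BAD := by
  rintro p n hp hpn ⟨i, hi, hin, hv⟩
  haveI : Fact p.Prime := ⟨hp⟩
  have hn0 : n ≠ 0 := by omega
  have hni : n - i ≠ 0 := by omega
  have h1 : 1 ≤ padicValNat p n := one_le_padicValNat_of_dvd hn0 hpn
  have h2 : p ∣ n - i := by
    have : 1 ≤ padicValNat p (n - i) := by omega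
    exact dvd_of_one_le_padicValNat this
  have h3 : p ∣ i := by
    have h := (Nat.dvd_sub hpn h2)
    rwa [Nat.sub_sub_self hin.le] at h
  obtain ⟨j, rfl⟩ := h3
  have hj : 1 ≤ j := by
    rcases Nat.eq_zero_or_pos j with h | h
    · subst h; omega
    · exact h
  refine ⟨j, hj, hin, ?_⟩
  have h4 : j ≤ padicValNat p (p * j).factorial :=
    (padicValNat_dvd_iff_le (Nat.factorial_ne_zero _)).1 (pow_dvd_fac p hp.pos j)
  exact (padicValNat_dvd_iff_le hni).2 (by omega)

end Pool.Agent.H45.SMS
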