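import Pool.Agent.H33.SMS.Targets

/-!
# Tail of the prime sums and exponentials against powers (MP_ec36a5_nt, rows TL and EXP)
-/

set_option autoImplicit false

namespace Pool.Agent.H45.SMS

open Pool.Agent.H33.SMS Filter Topology

theorem tele (P : ℕ) (hP : 1 ≤ P) : ∀ d : ℕ,
    ∑ m ∈ Finset.Ioc P (P + d), (2 : ℝ) * (1 / ((m : ℝ) - 1) - 1 / (m : ℝ)) =
      2 / (P : ℝ) - 2 / ((P + d : ℕ) : ℝ) := by
  intro d
  induction d with
  | zero => simp
  | succ d ih =>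
    have h1 : Finset.Ioc P (P + (d + 1)) = insert (P + d + 1) (Finset.Ioc P (P + d)) := by
      ext x
      simp only [Finset.mem_Ioc, Finset.mem_insert]
      omega
    have h2 : (P + d + 1) ∉ Finset.Ioc P (P + d) := by
      simp only [Finset.mem_Ioc]
      omega
    rw [h1, Finset.sum_insert h2, ih]
    have hP0 : (0 : ℝ) < (P : ℝ) := by exact_mod_cast hP
    have hd : (0 : ℝ) ≤ (d : ℝ) := Nat.cast_nonneg d
    have e1 : ((P + d + 1 : ℕ) : ℝ) = (P : ℝ) + d + 1 := by push_cast; ring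
    have e2 : ((P + (d + 1) : ℕ) : ℝ) = (P : ℝ) + d + 1 := by push_cast; ring
    have e3 : ((P + d : ℕ) : ℝ) = (P : ℝ) + d := by push_cast; ring
    rw [e1, e2, e3]
    have e4 : (P : ℝ) + d + 1 - 1 = (P : ℝ) + d := by ring
    rw [e4]
    have n1 : (P : ℝ) + d ≠ 0 := by positivity
    have n2 : (P : ℝ) + d + 1 ≠ 0 := by positivity
    ring

theorem pf_TL : T_TL := by
  intro P N hP
  rcases Nat.lt_or_ge N P with hN | hN
  · have h0 : Finset.Ioc P N = ∅ := by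
      ext x; simp only [Finset.mem_Ioc, Finset.notMem_empty, iff_false]; omega
    rw [h0]
    simp only [Finset.filter_empty, Finset.sum_empty]
    positivity
  · obtain ⟨d, rfl⟩ := Nat.exists_eq_add_of_le hN
    have hterm : ∀ m ∈ Finset.Ioc P (P + d),
        (1 / (m : ℝ) ^ 2 + 1 / ((m : ℝ) * (m - 1))) ≤ 2 * (1 / ((m : ℝ) - 1) - 1 / (m : ℝ)) ∧
        0 ≤ (2 : ℝ) * (1 / ((m : ℝ) - 1) - 1 / (m : ℝ)) := by
      intro m hm
      rw [Finset.mem_Ioc] at hm
      have hm2 : (2 : ℝ) ≤ (m : ℝ) := by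
        have : 2 ≤ m := by omega
        exact_mod_cast this
      have hm1 : (0 : ℝ) < (m : ℝ) - 1 := by linarith
      have hm0 : (0 : ℝ) < (m : ℝ) := by linarith
      have key : 1 / ((m : ℝ) - 1) - 1 / (m : ℝ) = 1 / ((m : ℝ) * (m - 1)) := by
        field_simp
        ring
      have hsq : 1 / (m : ℝ) ^ 2 ≤ 1 / ((m : ℝ) * (m - 1)) := by
        apply one_div_le_one_div_of_le (by positivity)
        nlinarith
      constructor
      · rw [key]; linarith
      · rw [key]; positivity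
    calc ∑ p ∈ (Finset.Ioc P (P + d)).filter Nat.Prime,
          (1 / (p : ℝ) ^ 2 + 1 / ((p : ℝ) * (p - 1)))
        ≤ ∑ p ∈ (Finset.Ioc P (P + d)).filter Nat.Prime,
          (2 : ℝ) * (1 / ((p : ℝ) - 1) - 1 / (p : ℝ)) :=
          Finset.sum_le_sum (fun m hm => (hterm m (Finset.mem_filter.1 hm).1).1)
      _ ≤ ∑ p ∈ Finset.Ioc P (P + d), (2 : ℝ) * (1 / ((p : ℝ) - 1) - 1 / (p : ℝ)) :=
          Finset.sum_le_sum_of_subset_of_nonneg (Finset.filter_subset _ _)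
            (fun m hm _ => (hterm m hm).2)
      _ = 2 / (P : ℝ) - 2 / ((P + d : ℕ) : ℝ) := tele P hP d
      _ ≤ 2 / (P : ℝ) := by
          have : (0 : ℝ) ≤ 2 / ((P + d : ℕ) : ℝ) := by positivity
          linarith

theorem pf_EXP : T_EXP := by
  intro c C D θ hc hC hD hθ hθ1
  have h1 : ∀ᶠ k : ℕ in atTop, 2 ≤ c * (k : ℝ) := by
    have : Tendsto (fun k : ℕ => c * (k : ℝ)) atTop atTop :=
      (tendsto_natCast_atTop_atTop).const_mul_atTop hc
    exact this.eventually_ge_atTop 2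
  have hθt : Tendsto (fun k : ℕ => θ ^ k) atTop (𝓝 0) :=
    tendsto_pow_atTop_nhds_zero_of_lt_one hθ.le hθ1
  have h2 : ∀ᶠ k : ℕ in atTop, C * θ ^ k ≤ 1 / 2 := by
    have h := hθt.const_mul C
    rw [mul_zero] at h
    exact h.eventually_le_const (by norm_num)
  have h3 : ∀ᶠ k : ℕ in atTop, (c * (k : ℝ)) ^ D * (2 * C * θ ^ k) < 1 := by
    set m : ℕ := ⌈D⌉₊ with hm
    have ht : Tendsto (fun k : ℕ => (k : ℝ) ^ m * θ ^ k) atTop (𝓝 0) :=
      tendsto_pow_const_mul_const_pow_of_abs_lt_one m (by rw [abs_of_pos hθ]; exact hθ1)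
    have ht2 := ht.const_mul (c ^ D * (2 * C))
    rw [mul_zero] at ht2
    have h4 : ∀ᶠ k : ℕ in atTop, c ^ D * (2 * C) * ((k : ℝ) ^ m * θ ^ k) < 1 :=
      ht2.eventually_lt_const (by norm_num)
    filter_upwards [h4, eventually_ge_atTop 1] with k hk hk1
    have hk1' : (1 : ℝ) ≤ (k : ℝ) := by exact_mod_cast hk1
    have hkD : (k : ℝ) ^ D ≤ (k : ℝ) ^ m := by
      rw [← Real.rpow_natCast]
      exact Real.rpow_le_rpow_of_exponent_le hk1' (Nat.le_ceil D)
    rw [Real.mul_rpow hc.le (by positivity)]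
    have hcD : 0 < c ^ D := Real.rpow_pos_of_pos hc D
    calc c ^ D * (k : ℝ) ^ D * (2 * C * θ ^ k)
        = (k : ℝ) ^ D * (c ^ D * (2 * C) * θ ^ k) := by ring
      _ ≤ (k : ℝ) ^ m * (c ^ D * (2 * C) * θ ^ k) :=
          mul_le_mul_of_nonneg_right hkD (by positivity)
      _ = c ^ D * (2 * C) * ((k : ℝ) ^ m * θ ^ k) := by ring
      _ < 1 := hk
  obtain ⟨K, hK⟩ := eventually_atTop.1 ((h1.and h2).and h3)
  exact ⟨K, fun k hk => ⟨(hK k hk).1.1, (hK k hk).1.2, (hK k hk).2⟩⟩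

end Pool.Agent.H45.SMS
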